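import Pool.Agent.V5helper79.PC.Glob

/-!
# Flats of CAT(0) cube complexes without `ℤ²`: the number of box patterns is at least the volume

Let `X` be a CAT(0) cube complex of any dimension, given by its 1-skeleton: a median graph with
degrees at most `D`.  Let `G` act geometrically on `X`, with vertex stabilisers of order at most `M`,
and suppose that `G` has no subgroup `ℤ²`.  Let `n ≥ 2`.  A flat is an isometric embedding `f` of the
grid `ℤ ^ n` in the median graph; it need not be convex, and `n` may be smaller than the dimension.

Theorem: for all `q 1, ..., q n ≥ 1` there is a number `S` such that within distance `S` of every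
point of every flat `f` there is a translate of the box `[0, q 1] × ... × [0, q n]` such that the
patterns of `f` on the boxes with radii `(M (D + 2) + 6) q i` around its points are pairwise
different, also up to `G`.  So there are at least `(q 1 + 1) ... (q n + 1)` such patterns up to `G`.

The starting theorem `QuadraticComplexity` is a lower bound for the number of square patterns of flat
planes in CAT(0) spaces.  Here all dimensions `n` of the flats and all shapes of the boxes are allowed.

Idea of the proof.

* If the patterns at `z` and `z + v` agree up to `g ∈ G` then `v` is a local period of `f`.  Suppose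
  that there is such a period `v ≠ 0` with `|v i| ≤ q i` at every place.
* If two local periods `v`, `w` at the same place with elements `g`, `h` are not parallel then, by
  the pigeonhole principle for the finitely many elements `g ^ (-i) h g ^ i`, `i ≤ M`, which move one
  vertex to another one, a power `z` of `g` commutes with `h`.  The hyperplanes of `X` dual to the
  edges of `f` in one coordinate direction form a chain which is shifted by `z` and `h`; it can be
  extended by the powers of `z` to a chain on which both act by shifts, and as there are no `D + 1`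
  pairwise crossing hyperplanes no power of `z` fixes them.  So `z`, `h` generate `ℤ²`.
* So all local periods are multiples `k s` of one vector `s`, and by a similar argument with commuting
  powers each of them is a period of a half-infinite tube in the direction `s`.  Neighbouring tubes
  overlap, so suitable powers of their elements agree, and `f` has a global period.
* Repetitions of patterns in another direction give an element which commutes with a power of the
  element of the global period, and again `ℤ²`.
* So every flat has a place without such a local period.  As limits of flats are flats, there is such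
  a place near every point, at a distance bounded by a constant which depends on the `q i` only.
-/

set_option autoImplicit false

namespace Pool.Agent.Results.MP_140312_al.BoxComplexity

open Function

/-- Median graphs: connected graphs in which any three vertices `a`, `b`, `c` have exactly one median
`m`, a vertex which is on geodesics between any two of them.  These are exactly the 1-skeletons of
the CAT(0) cube complexes. -/
def IsMedian {V : Type*} (Γ : SimpleGraph V) : Prop :=
  Γ.Connected ∧ ∀ a b c : V, ∃! m : V,
    Γ.dist a m + Γ.dist m b = Γ.dist a b ∧ Γ.dist b m + Γ.dist m c = Γ.dist b c ∧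
      Γ.dist a m + Γ.dist m c = Γ.dist a c

/-- Flats: isometric embeddings of the grid `ℤ ^ n` in the graph. -/
def IsFlat {n : ℕ} {V : Type*} (Γ : SimpleGraph V) (f : (Fin n → ℤ) → V) : Prop :=
  ∀ z w : Fin n → ℤ, (Γ.dist (f z) (f w) : ℤ) = ∑ i, |z i - w i|

/-- The pattern of `f` up to `G` on the box with radii `r` around `z`: the `G`-orbit of the map
`u ↦ f (z + u)`, `|u i| ≤ r i`. -/
def patternAt {n : ℕ} (G : Type*) {V : Type*} [Group G] [MulAction G V] (f : (Fin n → ℤ) → V)
    (r : Fin n → ℕ) (z : Fin n → ℤ) : Set ({u : Fin n → ℤ // ∀ i, |u i| ≤ r i} → V) :=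
  MulAction.orbit G fun u => f (z + u.1)

/-- Let `Γ` be a median graph with degrees at most `D`, i.e. the 1-skeleton of a CAT(0) cube complex.
Let `G` act on `Γ` by automorphisms with stabilisers of vertices of order at most `M` and finitely
many orbits of vertices, and suppose that `G` has no subgroup isomorphic to `ℤ²`.  Let `n ≥ 2` and
`q i ≥ 1` for `i = 1, ..., n`.  Then there is `S` such that for every flat `f` of dimension `n`:
for every `p₀` there is a box `[p i, p i + q i]`, `i = 1, ..., n`, with `|p i - p₀ i| ≤ S` for all `i`,
such that the patterns up to `G` of `f` on the boxes with radii `(M (D + 2) + 6) q i` around different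
points of this box are different; and `f` has at least `(q 1 + 1) ... (q n + 1)` patterns up to `G` on
boxes with these radii. -/
theorem result {V : Type*} {Γ : SimpleGraph V} (hΓ : IsMedian Γ) (D : ℕ)
    (hD : ∀ v, (Γ.neighborSet v).encard ≤ D)
    {G : Type*} [Group G] [MulAction G V] (haut : ∀ (g : G) (a b : V), Γ.Adj a b → Γ.Adj (g • a) (g • b))
    (M : ℕ) (hM : ∀ v : V, {g : G | g • v = v}.encard ≤ M)
    (horb : ∃ K : Set V, K.Finite ∧ ∀ v : V, ∃ g : G, g • v ∈ K)
    (hZ : ¬ ∃ φ : Multiplicative (ℤ × ℤ) →* G, Injective φ)
    {n : ℕ} (hn : 2 ≤ n) (q : Fin n → ℕ) (hq : ∀ i, 1 ≤ q i) :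
    ∃ S : ℕ, ∀ f : (Fin n → ℤ) → V, IsFlat Γ f →
      (∀ p₀ : Fin n → ℤ, ∃ p : Fin n → ℤ, (∀ i, |p i - p₀ i| ≤ S) ∧
        Set.InjOn (patternAt G f fun i => (M * (D + 2) + 6) * q i)
          {z | ∀ i, p i ≤ z i ∧ z i ≤ p i + q i}) ∧
      ((∏ i, (q i + 1) : ℕ) : ℕ∞) ≤
        (Set.range (patternAt G f fun i => (M * (D + 2) + 6) * q i)).encard := by
  have hA : Pool.Agent.V5helper79.BX.Act G Γ :=
    ⟨hΓ, fun v => (Set.encard_le_coe_iff.1 (hD v)).1, haut,
      fun v => (Set.encard_le_coe_iff.1 (hM v)).1, horb⟩
  obtain ⟨S, hS⟩ := Pool.Agent.V5helper79.PC.unif hA hM hD hZ hn hq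
  refine ⟨S, fun f hf => ?_⟩
  have hf' : Pool.Agent.V5helper79.PC.Iso Γ f := by
    intro z w
    have := hf z w
    unfold Pool.Agent.V5helper79.BX.ds
    zify
    exact this
  have hex : ∀ p₀ : Fin n → ℤ, ∃ p : Fin n → ℤ, (∀ i, |p i - p₀ i| ≤ S) ∧
      Set.InjOn (patternAt G f fun i => (M * (D + 2) + 6) * q i)
        {z | ∀ i, p i ≤ z i ∧ z i ≤ p i + q i} := by
    intro p₀
    obtain ⟨p, hp, hper⟩ := hS f hf' p₀
    refine ⟨p, fun i => ?_, fun z hz z' hz' he => ?_⟩
    · rw [Int.abs_eq_natAbs]
      exact_mod_cast hp i
    by_contra hne
    simp only [Set.mem_ofPred_eq] at hz hz'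
    obtain ⟨g, hg⟩ : ∃ g : G, g • (fun u : {u : Fin n → ℤ //
        ∀ i, |u i| ≤ (((M * (D + 2) + 6) * q i : ℕ) : ℤ)} => f (z + u.1)) =
          fun u => f (z' + u.1) := MulAction.mem_orbit_iff.1 (MulAction.orbit_eq_iff.1 he.symm)
    refine hper g (z' - z) (fun h => hne (sub_eq_zero.1 h).symm) (fun i => ?_) (fun x hx => ?_)
    · have h2 := hz i
      have h3 := hz' i
      simp only [Pi.sub_apply]
      omega
    · have h2 := congrFun hg ⟨x - z, fun i => ?_⟩
      · simp only [Pi.smul_apply] at h2
        rw [add_sub_cancel] at h2
        rw [h2]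
        congr 1
        abel
      · have h3 := hz i
        have h4 : (x i - p i).natAbs ≤ (M * (D + 2) + 5) * q i := hx i
        have e : (M * (D + 2) + 6) * q i = (M * (D + 2) + 5) * q i + q i := by ring
        rw [Pi.sub_apply, Int.abs_eq_natAbs]
        have h5 : (x i - z i).natAbs ≤ (M * (D + 2) + 6) * q i := by omega
        exact_mod_cast h5
  refine ⟨hex, ?_⟩
  obtain ⟨p, -, hp⟩ := hex 0
  have h1 : ({z | ∀ i, p i ≤ z i ∧ z i ≤ p i + q i} : Set (Fin n → ℤ)) =
      ((Finset.Icc p (fun i => p i + q i) : Finset (Fin n → ℤ)) : Set (Fin n → ℤ)) := by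
    ext z
    simp only [Set.mem_ofPred_eq, Finset.coe_Icc, Set.mem_Icc, Pi.le_def]
    exact forall_and
  rw [h1] at hp
  calc ((∏ i, (q i + 1) : ℕ) : ℕ∞)
      = ((Finset.Icc p (fun i => p i + q i)).card : ℕ∞) := by
        rw [Pi.card_Icc]
        congr 1
        refine Finset.prod_congr rfl fun i _ => ?_
        rw [Int.card_Icc]
        omega
    _ = (((Finset.Icc p (fun i => p i + q i) : Finset (Fin n → ℤ)) : Set (Fin n → ℤ))).encard :=
        (Set.encard_coe_eq_coe_finsetCard _).symm
    _ = _ := hp.encard_image.symm
    _ ≤ _ := Set.encard_le_encard (Set.image_subset_range _ _)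

end Pool.Agent.Results.MP_140312_al.BoxComplexity
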