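import Pool.Agent.V5helper79.BX.Dim

/-!
# Convex flats of CAT(0) cube complexes which meet exactly in finite boxes, in every dimension

Let `X` be a CAT(0) cube complex of any dimension, given by its 1-skeleton: a median graph.  Let `G`
act geometrically on `X` and let `n ≥ 2`.  A flat is an isometric embedding `f` of the grid `ℤ ^ n` in
the median graph.  It is convex if its image contains all geodesics between its points, that is if it
is a convex subcomplex; this is so for all flats if `n` is the dimension of `X` (so for all flat planes
of a square complex).  The limit flats of `f` are the pointwise limits of the flats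
`z ↦ g • f (z + b)`, `g ∈ G`, `b ∈ ℤ ^ n`.

Theorem: let `f` be a convex flat and suppose that `G` has no subgroup `ℤ²`.  Then there is a limit
flat `h₀` of `f` whose family `L` of limit flats is minimal (all members are limit flats of each
other), such that for every `R` there are a box `[0, m 1] × ... × [0, m n]` with finite sides
`m i ≥ R` and a number `S` with the following property: for EVERY flat `h` of the family `L` and every
point `p` of `ℤ ^ n` there is a flat `k` in `L` whose intersection with `h` is exactly a translate of
this box, at distance at most `S` from `p`.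

So if `G` acts geometrically on a CAT(0) cube complex and for some convex flat `f` of dimension
`n ≥ 2` the limit flats of `f` which have a large cube in common always have an unbounded
intersection, then `G` contains `ℤ²`.  The starting theorem `FiniteRectangles` is the existence of one
such pair of flats, in a complex of dimension two (where `n = 2`).

Idea of the proof.

* The set where two convex flats agree is a box with finite or infinite sides as soon as it contains a
  point and its `2 n` neighbours, and the flats are disjoint outside of it.
* Take a minimal closed invariant family `L`.  If a large cube of a flat of `L` determines the flat on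
  the cubes next to it in one of the `2 n` directions, then the flats are periodic on tubes in this
  direction, and repetitions in another direction give `ℤ²`.  So for each direction there are pairs
  in `L` which agree on a large cube and separate in this direction.
* Let `h', k'` be a pair in `L` which agrees on a large cube and separates in some directions, and
  let `f₁, f₂` be a pair which separates in one more direction and agrees on a much larger cube.
  A translate of a part of `h'` is contained in `f₂`, inside of this larger cube, as `L` is minimal;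
  let `f₃` be the corresponding translate of `k'`.  Then both `f₁, f₃` and `f₂, f₃` separate in the
  directions of `h', k'`, and one of these two pairs separates in the direction of `f₁, f₂`, as `f₃`
  cannot agree with both flats where these are different.  So there are pairs which separate in all
  `2 n` directions.
-/

set_option autoImplicit false

namespace Pool.Agent.Results.MP_140312_al.FiniteBoxes

open Function

/-- Median graphs: connected graphs in which any three vertices `a`, `b`, `c` have exactly one median
`m`, a vertex which is on geodesics between any two of them.  These are exactly the 1-skeletons of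
the CAT(0) cube complexes. -/
def IsMedian {V : Type*} (Γ : SimpleGraph V) : Prop :=
  Γ.Connected ∧ ∀ a b c : V, ∃! m : V,
    Γ.dist a m + Γ.dist m b = Γ.dist a b ∧ Γ.dist b m + Γ.dist m c = Γ.dist b c ∧
      Γ.dist a m + Γ.dist m c = Γ.dist a c

/-- No vertex has `n + 1` different neighbours any two of which have a second common neighbour, that
is no `n + 1` edges at a vertex pairwise span squares.  As the links of a CAT(0) cube complex are
flag complexes this means that its dimension is at most `n`. -/
def DimAtMost {V : Type*} (n : ℕ) (Γ : SimpleGraph V) : Prop :=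
  ¬ ∃ (x : V) (p : Fin (n + 1) → V), Injective p ∧ (∀ i, Γ.Adj x (p i)) ∧
    ∀ i j, i ≠ j → ∃ y, y ≠ x ∧ Γ.Adj (p i) y ∧ Γ.Adj (p j) y

/-- Flats: isometric embeddings of the grid `ℤ ^ n` in the graph. -/
def IsFlat {n : ℕ} {V : Type*} (Γ : SimpleGraph V) (f : (Fin n → ℤ) → V) : Prop :=
  ∀ z w : Fin n → ℤ, (Γ.dist (f z) (f w) : ℤ) = ∑ i, |z i - w i|

/-- The image of `f` is convex: it contains all vertices on the geodesics between its points. -/
def IsConvex {n : ℕ} {V : Type*} (Γ : SimpleGraph V) (f : (Fin n → ℤ) → V) : Prop :=
  ∀ (z w : Fin n → ℤ) (v : V), Γ.dist (f z) v + Γ.dist v (f w) = Γ.dist (f z) (f w) → ∃ u, f u = v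

/-- The limit flats of `f`: the maps which agree on every finite cube of the grid with one of the
flats `z ↦ g • f (z + b)`, where `g` is in `G` and `b` is in `ℤ ^ n`. -/
def LimitFlats {n : ℕ} (G : Type*) {V : Type*} [Group G] [MulAction G V] (f : (Fin n → ℤ) → V) :
    Set ((Fin n → ℤ) → V) :=
  {h | ∀ R : ℕ, ∃ (g : G) (b : Fin n → ℤ), ∀ z : Fin n → ℤ, (∀ i, |z i| ≤ R) → h z = g • f (z + b)}

/-- Let `Γ` be a locally finite median graph, i.e. the 1-skeleton of a locally finite CAT(0) cube
complex.  Let `G` act on `Γ` by automorphisms with finite stabilisers and finitely many orbits of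
vertices, and suppose that `G` has no subgroup isomorphic to `ℤ²`.  Let `f` be a flat of dimension
`n ≥ 2`, convex or of the dimension of the complex.  Then all limit flats of `f` are convex flats, and
there is a limit flat `h₀` of `f` such that all members of the family of the limit flats of `h₀` are
limit flats of each other and of `f`, and such that for every `R` there are a box with sides `m i ≥ R`
and a number `S` with the following property: for every limit flat `h` of `h₀` and every `p` in
`ℤ ^ n` there are a limit flat `k` of `h₀` and a translate `[c 1, c 1 + m 1] × ... × [c n, c n + m n]` of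
the box, at distance at most `S` from `p`, such that `h z = k w` if and only if `z = w` is in this
translate. -/
theorem result {n : ℕ} (hn : 2 ≤ n) {V : Type*} {Γ : SimpleGraph V} (hΓ : IsMedian Γ)
    (hfin : ∀ v, (Γ.neighborSet v).Finite)
    {G : Type*} [Group G] [MulAction G V] (haut : ∀ (g : G) (a b : V), Γ.Adj a b → Γ.Adj (g • a) (g • b))
    (hstab : ∀ v : V, {g : G | g • v = v}.Finite)
    (horb : ∃ K : Set V, K.Finite ∧ ∀ v : V, ∃ g : G, g • v ∈ K)
    (hZ : ¬ ∃ φ : Multiplicative (ℤ × ℤ) →* G, Injective φ)
    (f : (Fin n → ℤ) → V) (hf : IsFlat Γ f) (hc : IsConvex Γ f ∨ DimAtMost n Γ) :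
    (∀ h ∈ LimitFlats G f, IsFlat Γ h ∧ IsConvex Γ h) ∧
    ∃ h₀ ∈ LimitFlats G f,
      (∀ h ∈ LimitFlats G h₀, h ∈ LimitFlats G f ∧ LimitFlats G h = LimitFlats G h₀) ∧
      ∀ R : ℕ, ∃ (m : Fin n → ℕ) (S : ℕ), (∀ i, R ≤ m i) ∧
        ∀ h ∈ LimitFlats G h₀, ∀ p : Fin n → ℤ, ∃ c : Fin n → ℤ, (∀ i, |c i - p i| ≤ S) ∧
          ∃ k ∈ LimitFlats G h₀, ∀ z w : Fin n → ℤ,
            h z = k w ↔ z = w ∧ ∀ i, c i ≤ z i ∧ z i ≤ c i + m i := by
  have hA : Pool.Agent.V5helper79.BX.Act G Γ := ⟨hΓ, hfin, haut, hstab, horb⟩
  have hds : ∀ z w : Fin n → ℤ, ((Pool.Agent.V5helper79.BX.ds z w : ℕ) : ℤ) = ∑ i, |z i - w i| := by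
    intro z w
    unfold Pool.Agent.V5helper79.BX.ds
    push_cast
    rfl
  have hf' : ∀ z w, Γ.dist (f z) (f w) = Pool.Agent.V5helper79.BX.ds z w := by
    intro z w
    have := hf z w
    rw [← hds] at this
    exact_mod_cast this
  have hO : ∀ h : (Fin n → ℤ) → V, Pool.Agent.V5helper79.BX.Orb G h = LimitFlats G h := by
    intro h
    ext k
    have e : ∀ (R : ℕ) (z : Fin n → ℤ), z ∈ Pool.Agent.V5helper79.BX.Win n R ↔ ∀ i, |z i| ≤ R := by
      intro R z
      refine forall_congr' fun i => ?_
      rw [Int.abs_eq_natAbs]
      omega
    unfold Pool.Agent.V5helper79.BX.Orb LimitFlats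
    simp only [Set.mem_ofPred_eq, e]
  have hC : Pool.Agent.V5helper79.BX.CFlat Γ f := by
    rcases hc with hc | hc
    · exact ⟨hf', hc⟩
    · exact Pool.Agent.V5helper79.BX.conv_of_dim hΓ hc hf'
  have hS := Pool.Agent.V5helper79.BX.Orb.sys hA hC
  refine ⟨fun h hh => ?_, ?_⟩
  · rw [← hO] at hh
    have := hS.flat h hh
    refine ⟨fun z w => ?_, this.conv⟩
    rw [this.flat, hds]
  obtain ⟨L, hLf, hL⟩ := hS.exists_min hA ⟨f, Pool.Agent.V5helper79.BX.Orb.self f⟩
  obtain ⟨h₀, hh₀⟩ := hL.ne
  have hLe : ∀ h ∈ L, LimitFlats G h = L := by
    intro h hh
    rw [← hO]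
    exact Set.Subset.antisymm (hL.sys.orb hh) (hL.min h hh)
  refine ⟨h₀, ?_, ?_, ?_⟩
  · rw [← hO]; exact hLf hh₀
  · rw [hLe h₀ hh₀]
    intro h hh
    exact ⟨by rw [← hO]; exact hLf hh, hLe h hh⟩
  · rw [hLe h₀ hh₀]
    exact fun R => Pool.Agent.V5helper79.BX.every hA hL hn hZ R

end Pool.Agent.Results.MP_140312_al.FiniteBoxes
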