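import Pool.Agent.V5helper35.WF.Axes

/-!
# Free semigroups of translations of thick flat strips if there is no `ℤ²`

Let `X` be a CAT(0) cube complex of dimension at most two, given by its 1-skeleton: a median graph
without 3-cubes.  Let `G` act geometrically on `X` (finite stabilisers are allowed) and let `f` be a
flat plane of `X`, i.e. an isometric embedding of the grid `ℤ × ℤ` in the median graph.

Theorem: if `G` has no subgroup `ℤ²` then for all `b` and `w`

* there are two elements of `G` which freely generate a free semigroup such that every element `g ≠ 1`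
  of this semigroup is a translation of a flat strip `S ≅ ℤ × [0, b]` of width `b`; all these strips
  contain one vertical segment `Q` of length `b`, every block `[i, i + w] × [0, b]` of each of them is
  a translate of a block of the given plane `f` by an element of `G`, and the translation length of `g`
  on its strip is additive on the semigroup;
* the number of the flat rectangles `[0, n] × [0, b]`, all of whose blocks of length `w` are translates
  of blocks of `f`, grows exponentially with `n`, up to `G`.

So for a group with a flat plane: if for one width `b` the number of the flat rectangles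
`[0, n] × [0, b]` up to `G` does not grow exponentially with `n`, or the translations of the flat
strips of some width `b` contain no free semigroup of this kind, then `G` contains `ℤ²`.

Idea of the proof.  Take a flat `h` in a minimal closed invariant family of limit flats of `f`, and
call the `G`-class of the window of size `W × B` of `h` at a point the state of the point, where `W`
and `B` are so large that the pointwise stabiliser of a window fixes all planes of the family which
contain it.  If there are two different first return words to some state along horizontal lines of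
`h` then the corresponding blocks can be concatenated in any order.  The strips obtained in this way
are isometric, as the distance from a vertex has no local maximum on a horizontal line of such a
strip (there are no 3-cubes), and different words give different strips, as a strip of positive width
is determined by its left and right ends (no 3-cubes again).  If the first return words are unique
then all horizontal lines of `h` are eventually periodic with one common period.  Then a very high
strip of `h` has one horizontal translation `u`; two windows at its left end are equal up to an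
element `g` of `G`, by the pigeonhole principle, and `u` and a power of `g` generate `ℤ²`.
-/

set_option autoImplicit false

namespace Pool.Agent.Results.MP_140312_al.ThickStrips

open Function

/-- Median graphs: connected graphs in which any three vertices `a`, `b`, `c` have exactly one median
`m`, a vertex which is on geodesics between any two of them.  These are exactly the 1-skeletons of
the CAT(0) cube complexes. -/
def IsMedian {V : Type*} (Γ : SimpleGraph V) : Prop :=
  Γ.Connected ∧ ∀ a b c : V, ∃! m : V,
    Γ.dist a m + Γ.dist m b = Γ.dist a b ∧ Γ.dist b m + Γ.dist m c = Γ.dist b c ∧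
      Γ.dist a m + Γ.dist m c = Γ.dist a c

/-- The graph contains no 3-cube: for the 1-skeleton of a CAT(0) cube complex this means that the
dimension of the complex is at most two. -/
def NoThreeCube {V : Type*} (Γ : SimpleGraph V) : Prop :=
  ¬ ∃ c : (Fin 3 → Bool) → V, Injective c ∧ ∀ s i, Γ.Adj (c s) (c (update s i (!s i)))

/-- Flat planes: isometric embeddings of the grid `ℤ × ℤ` in the graph. -/
def IsFlat {V : Type*} (Γ : SimpleGraph V) (f : ℤ × ℤ → V) : Prop :=
  ∀ z w : ℤ × ℤ, (Γ.dist (f z) (f w) : ℤ) = |z.1 - w.1| + |z.2 - w.2|

/-- Flat strips of width `b` composed of blocks of `f`: isometric embeddings `S` of the grid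
`ℤ × {0, …, b}` in the graph such that every block `[i, i + w] × [0, b]` of `S` is a translate by an
element of `G` of a block of the plane `f`. -/
structure IsStrip {V : Type*} (Γ : SimpleGraph V) (G : Type*) [Group G] [MulAction G V]
    (f : ℤ × ℤ → V) (w b : ℕ) (S : ℤ × Fin (b + 1) → V) : Prop where
  iso : ∀ z z', (Γ.dist (S z) (S z') : ℤ) = |z.1 - z'.1| + |((z.2 : ℕ) : ℤ) - (z'.2 : ℕ)|
  loc : ∀ i : ℤ, ∃ (g : G) (c : ℤ × ℤ), ∀ z : ℤ × Fin (b + 1),
    i ≤ z.1 → z.1 ≤ i + w → S z = g • f (c.1 + z.1, c.2 + (z.2 : ℕ))

/-- Flat rectangles of length `n` and width `b` composed of blocks of `f`: isometric embeddings `r` of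
the grid `{0, …, n} × {0, …, b}` in the graph such that every block `[i, i + w] × [0, b]` of `r` is a
translate by an element of `G` of a block of the plane `f`. -/
structure IsRectangle {V : Type*} (Γ : SimpleGraph V) (G : Type*) [Group G] [MulAction G V]
    (f : ℤ × ℤ → V) (w n b : ℕ) (r : Fin (n + 1) × Fin (b + 1) → V) : Prop where
  iso : ∀ z z', (Γ.dist (r z) (r z') : ℤ) =
    |((z.1 : ℕ) : ℤ) - (z'.1 : ℕ)| + |((z.2 : ℕ) : ℤ) - (z'.2 : ℕ)|
  loc : ∀ i : ℕ, ∃ (g : G) (c : ℤ × ℤ), ∀ z : Fin (n + 1) × Fin (b + 1),
    i ≤ (z.1 : ℕ) → (z.1 : ℕ) ≤ i + w → r z = g • f (c.1 + (z.1 : ℕ), c.2 + (z.2 : ℕ))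

/-- The flat rectangles of length `n` and width `b` composed of blocks of `f`, up to `G`. -/
def rectangles {V : Type*} (Γ : SimpleGraph V) (G : Type*) [Group G] [MulAction G V]
    (f : ℤ × ℤ → V) (w n b : ℕ) : Set (Set (Fin (n + 1) × Fin (b + 1) → V)) :=
  {O | ∃ r, IsRectangle Γ G f w n b r ∧ MulAction.orbit G r = O}

/-- Let `Γ` be a locally finite median graph without 3-cubes, i.e. the 1-skeleton of a locally finite
CAT(0) cube complex of dimension at most two.  Let `G` act on `Γ` by automorphisms with finite
stabilisers and finitely many orbits of vertices, and suppose that `G` has no subgroup isomorphic to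
`ℤ²`.  Let `f` be a flat plane.  Then for all `w` and `b`:

* there are elements `θ 0`, `θ 1` of `G` which freely generate a free semigroup, positive numbers
  `l 0`, `l 1` and a path `Q` such that for every nonempty word `ω` in two letters there is a flat
  strip `S` of width `b`, composed of blocks of length `w` of `f`, with `S (0, y) = Q y` on which the
  product `θ ω` acts as the translation by `l ω`, the sum of the lengths of the letters of `ω`;
* there are `K, M > 0` such that for every `n` the number of the flat rectangles of length `n` and
  width `b`, composed of blocks of length `w` of `f`, up to `G`, is at least `2 ^ ⌊n / K⌋ / M`. -/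
theorem result {V : Type*} {Γ : SimpleGraph V} (hΓ : IsMedian Γ) (h3 : NoThreeCube Γ)
    (hfin : ∀ v, (Γ.neighborSet v).Finite)
    {G : Type*} [Group G] [MulAction G V] (haut : ∀ (g : G) (a b : V), Γ.Adj a b → Γ.Adj (g • a) (g • b))
    (hstab : ∀ v : V, {g : G | g • v = v}.Finite)
    (horb : ∃ K : Set V, K.Finite ∧ ∀ v : V, ∃ g : G, g • v ∈ K)
    (hZ : ¬ ∃ φ : Multiplicative (ℤ × ℤ) →* G, Injective φ)
    (f : ℤ × ℤ → V) (hf : IsFlat Γ f) (w b : ℕ) :
    (∃ (θ : Bool → G) (l : Bool → ℕ) (Q : Fin (b + 1) → V), (∀ i, 0 < l i) ∧
      (Injective fun ω : List Bool => (ω.map θ).prod) ∧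
      ∀ ω : List Bool, ω ≠ [] → ∃ S : ℤ × Fin (b + 1) → V, IsStrip Γ G f w b S ∧
        (∀ y, S (0, y) = Q y) ∧
        ∀ x y, (ω.map θ).prod • S (x, y) = S (x + (((ω.map l).sum : ℕ) : ℤ), y)) ∧
    ∃ K M : ℕ, 0 < K ∧ 0 < M ∧ ∀ n : ℕ, 2 ^ (n / K) ≤ M * (rectangles Γ G f w n b).ncard := by
  have hA : Pool.Agent.N47.SQ.Act G Γ := ⟨hΓ, h3, hfin, haut, hstab, horb⟩
  have hf' : Pool.Agent.N47.SQ.IsFlat Γ f := hf
  refine ⟨?_, ?_⟩
  · obtain ⟨θ, l, Q, h1, h2, h3⟩ := Pool.Agent.V5helper35.WF.main_thm hA hZ hf' w b
    refine ⟨θ, l, Q, h1, h2, fun ω hω => ?_⟩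
    obtain ⟨S, h4, h5, h6⟩ := h3 ω hω
    exact ⟨S, ⟨h4.iso, h4.loc⟩, h5, h6⟩
  · obtain ⟨K, M, hK, hM, h⟩ := Pool.Agent.V5helper35.WF.exp_growth hA hZ hf' w b
    refine ⟨K, M, hK, hM, fun n => ?_⟩
    have e : rectangles Γ G f w n b = Pool.Agent.V5helper35.WF.rects Γ G f w n b := by
      ext O
      constructor
      · rintro ⟨r, hr, rfl⟩
        exact ⟨r, ⟨hr.iso, hr.loc⟩, rfl⟩
      · rintro ⟨r, hr, rfl⟩
        exact ⟨r, ⟨hr.iso, hr.loc⟩, rfl⟩
    rw [e]
    exact h n

end Pool.Agent.Results.MP_140312_al.ThickStrips
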