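import Pool.Agent.V5helper35.WF.Fin

/-!
# The words on the lines of a flat plane have superlinear complexity if there is no `ℤ²`

Let `X` be a CAT(0) cube complex of dimension at most two, given by its 1-skeleton: a median graph
without 3-cubes.  The flat planes of `X` are the planes tiled by unit squares, i.e. the isometric
embeddings of the grid `ℤ × ℤ` in the median graph.  Let `G` act geometrically on `X` (finite
stabilisers are allowed) and let `f` be a flat plane.  Let `ρ(n)` and `γ(n)` be the numbers of the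
words of length `n` up to `G` on the horizontal and on the vertical lines of `f`: the numbers of
`G`-orbits of the sequences `(f b, f (b + e), …, f (b + n e))`, `e` the horizontal or the vertical
unit vector.

Theorem: if `G` has no subgroup `ℤ²` then

* `ρ(m) ≥ m n / C` for all `m ≥ C γ(n)`, and the same with `ρ` and `γ` exchanged (`C` depends only on
  `G`, `X`, `f`);
* in particular both `ρ(m)` and `γ(m)` are at least `c m log m`: if the words on the lines of one
  direction of one flat plane have linear complexity then `G` contains `ℤ²`;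
* if `ρ(n) ≤ A n ^ s` and `γ(n) ≤ A n ^ t` then `s ≥ 1 + 1 / t` and `t ≥ 1 + 1 / s`; in particular
  `max s t` is at least the golden ratio.

Idea of the proof.  Take a minimal closed invariant family of limit flats of `f`.  In such a family
the pointwise stabiliser of a square of a certain size `s` fixes the whole plane.  By a theorem of
the starting files there are two planes `h`, `k` of the family which meet exactly in a rectangle as
large as we like.  The words of length `a` (of height `s`) in `h` which end at the right side of this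
rectangle have two different extensions to the right up to `G`, so if the complexity of the words
of length `a` grows by less than `n` then two of `n` consecutive such words are equal up to `G`: an
element `g` of `G` moves the block `[b - a, b] × [y, y + s]` of `h` up by `τ < n`.  If `a > C γ(n)` then
two vertical blocks of width `s` and height `n + s` of the strip over `[b - a, b]` are equal up to an
element `u` of `G`, which is a horizontal translation there.  A square of `X` is determined by three
of its vertices, so `u` commutes with `g` up to the pointwise stabiliser of `h`, a finite group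
which is normalised by `g`; so `u` commutes with a power of `g`, and they generate `ℤ²`, as `u` moves
a half-space properly into itself which is preserved by `g`.
-/

set_option autoImplicit false

namespace Pool.Agent.Results.MP_140312_al.WordsOnLines

open Function

/-- Median graphs: connected graphs in which any three vertices `a`, `b`, `c` have exactly one median
`m`, a vertex which is on geodesics between any two of them.  These are exactly the 1-skeletons of
the CAT(0) cube complexes. -/
def IsMedian {V : Type*} (Γ : SimpleGraph V) : Prop :=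
  Γ.Connected ∧ ∀ a b c : V, ∃! m : V,
    Γ.dist a m + Γ.dist m b = Γ.dist a b ∧ Γ.dist b m + Γ.dist m c = Γ.dist b c ∧
      Γ.dist a m + Γ.dist m c = Γ.dist a c

/-- The graph contains no 3-cube: for the 1-skeleton of a CAT(0) cube complex this means that the
dimension of the complex is at most two. -/
def NoThreeCube {V : Type*} (Γ : SimpleGraph V) : Prop :=
  ¬ ∃ c : (Fin 3 → Bool) → V, Injective c ∧ ∀ s i, Γ.Adj (c s) (c (update s i (!s i)))

/-- Flat planes: isometric embeddings of the grid `ℤ × ℤ` in the graph. -/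
def IsFlat {V : Type*} (Γ : SimpleGraph V) (f : ℤ × ℤ → V) : Prop :=
  ∀ z w : ℤ × ℤ, (Γ.dist (f z) (f w) : ℤ) = |z.1 - w.1| + |z.2 - w.2|

/-- The number of words of length `n` on the horizontal lines of `f`, up to `G`: the number of
different `G`-orbits of the sequences `i ↦ f (x + i, y)`, `0 ≤ i ≤ n`. -/
noncomputable def rowWords (G : Type*) {V : Type*} [Group G] [MulAction G V] (f : ℤ × ℤ → V)
    (n : ℕ) : ℕ :=
  (Set.range fun b : ℤ × ℤ => MulAction.orbit G fun i : Fin (n + 1) => f (b.1 + (i : ℕ), b.2)).ncard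

/-- The number of words of length `n` on the vertical lines of `f`, up to `G`. -/
noncomputable def columnWords (G : Type*) {V : Type*} [Group G] [MulAction G V] (f : ℤ × ℤ → V)
    (n : ℕ) : ℕ :=
  (Set.range fun b : ℤ × ℤ => MulAction.orbit G fun i : Fin (n + 1) => f (b.1, b.2 + (i : ℕ))).ncard

open Pool.Agent.V5helper35.WF in
theorem row_eq (G : Type*) {V : Type*} [Group G] [MulAction G V] (f : ℤ × ℤ → V) (n : ℕ) :
    rowWords G f n = cnt G f (rec n 0) := by
  refine ncard_range_eq _ _ fun b b' => ?_
  rw [cls_eq_iff, MulAction.orbit_eq_iff, MulAction.mem_orbit_iff]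
  constructor
  · rintro ⟨g, hg⟩
    refine Same.symm ⟨g, fun z hz => ?_⟩
    obtain ⟨h1, h2, h3, h4⟩ := hz
    obtain ⟨i, hi⟩ := Int.eq_ofNat_of_zero_le h1
    have h5 := congrFun hg ⟨i, by omega⟩
    simp only [Pi.smul_apply] at h5
    have e : ∀ c : ℤ × ℤ, z + c = (c.1 + (i : ℤ), c.2) := fun c => by
      refine Prod.ext ?_ ?_
      · simp only [Prod.fst_add]; omega
      · simp only [Prod.snd_add]; push_cast at h4; omega
    rw [e, e]
    exact h5
  · intro h
    obtain ⟨g, hg⟩ := h.symm
    refine ⟨g, funext fun i => ?_⟩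
    have h5 := hg ((i : ℕ), 0) ⟨by simp, by have := i.2; simp only; omega, by simp, by simp⟩
    simp only [Pi.smul_apply]
    have e : ∀ c : ℤ × ℤ, (((i : ℕ) : ℤ), (0 : ℤ)) + c = (c.1 + ((i : ℕ) : ℤ), c.2) := fun c => by
      refine Prod.ext ?_ ?_
      · simp only [Prod.fst_add]; omega
      · simp only [Prod.snd_add]; omega
    rw [e, e] at h5
    exact h5

open Pool.Agent.V5helper35.WF in
theorem column_eq (G : Type*) {V : Type*} [Group G] [MulAction G V] (f : ℤ × ℤ → V) (n : ℕ) :
    columnWords G f n = cnt G f (rec 0 n) := by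
  refine ncard_range_eq _ _ fun b b' => ?_
  rw [cls_eq_iff, MulAction.orbit_eq_iff, MulAction.mem_orbit_iff]
  constructor
  · rintro ⟨g, hg⟩
    refine Same.symm ⟨g, fun z hz => ?_⟩
    obtain ⟨h1, h2, h3, h4⟩ := hz
    obtain ⟨i, hi⟩ := Int.eq_ofNat_of_zero_le h3
    have h5 := congrFun hg ⟨i, by omega⟩
    simp only [Pi.smul_apply] at h5
    have e : ∀ c : ℤ × ℤ, z + c = (c.1, c.2 + (i : ℤ)) := fun c => by
      refine Prod.ext ?_ ?_
      · simp only [Prod.fst_add]; push_cast at h2; omega
      · simp only [Prod.snd_add]; omega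
    rw [e, e]
    exact h5
  · intro h
    obtain ⟨g, hg⟩ := h.symm
    refine ⟨g, funext fun i => ?_⟩
    have h5 := hg (0, (i : ℕ)) ⟨by simp, by simp, by simp, by have := i.2; simp only; omega⟩
    simp only [Pi.smul_apply]
    have e : ∀ c : ℤ × ℤ, ((0 : ℤ), ((i : ℕ) : ℤ)) + c = (c.1, c.2 + ((i : ℕ) : ℤ)) := fun c => by
      refine Prod.ext ?_ ?_
      · simp only [Prod.fst_add]; omega
      · simp only [Prod.snd_add]; omega
    rw [e, e] at h5
    exact h5

/-- Let `Γ` be a locally finite median graph without 3-cubes, i.e. the 1-skeleton of a locally finite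
CAT(0) cube complex of dimension at most two.  Let `G` act on `Γ` by automorphisms with finite
stabilisers and finitely many orbits of vertices, and suppose that `G` has no subgroup isomorphic to
`ℤ²`.  Then for every flat plane `f`:

* there is `C` such that `ρ(m) ≥ m n / C` for all `m ≥ C γ(n)`, and `γ(m) ≥ m n / C` for all
  `m ≥ C ρ(n)`;
* there is `c > 0` such that `ρ(m) ≥ c m log m` and `γ(m) ≥ c m log m` for all `m`;
* if `ρ(n) ≤ A n ^ s` and `γ(n) ≤ A n ^ t` for all `n ≥ 1` then `s ≥ 1 + 1 / t`, `t ≥ 1 + 1 / s` and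
  `max s t` is at least the golden ratio.

Here `ρ(n)`, `γ(n)` are the numbers of horizontal and of vertical words of length `n` of `f`, up to
`G`. -/
theorem result {V : Type*} {Γ : SimpleGraph V} (hΓ : IsMedian Γ) (h3 : NoThreeCube Γ)
    (hfin : ∀ v, (Γ.neighborSet v).Finite)
    {G : Type*} [Group G] [MulAction G V] (haut : ∀ (g : G) (a b : V), Γ.Adj a b → Γ.Adj (g • a) (g • b))
    (hstab : ∀ v : V, {g : G | g • v = v}.Finite)
    (horb : ∃ K : Set V, K.Finite ∧ ∀ v : V, ∃ g : G, g • v ∈ K)
    (hZ : ¬ ∃ φ : Multiplicative (ℤ × ℤ) →* G, Injective φ)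
    (f : ℤ × ℤ → V) (hf : IsFlat Γ f) :
    (∃ C : ℕ, 0 < C ∧ ∀ m n : ℕ,
      (C * columnWords G f n ≤ m → m * n ≤ C * rowWords G f m) ∧
      (C * rowWords G f n ≤ m → m * n ≤ C * columnWords G f m)) ∧
    (∃ c : ℝ, 0 < c ∧ ∀ m : ℕ, c * m * Real.log m ≤ rowWords G f m ∧
      c * m * Real.log m ≤ columnWords G f m) ∧
    ∀ A s t : ℝ, (∀ n : ℕ, 1 ≤ n → (rowWords G f n : ℝ) ≤ A * (n : ℝ) ^ s ∧
        (columnWords G f n : ℝ) ≤ A * (n : ℝ) ^ t) →
      1 + 1 / t ≤ s ∧ 1 + 1 / s ≤ t ∧ Real.goldenRatio ≤ max s t := by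
  have hA : Pool.Agent.N47.SQ.Act G Γ := ⟨hΓ, h3, hfin, haut, hstab, horb⟩
  have hf' : Pool.Agent.N47.SQ.IsFlat Γ f := hf
  obtain ⟨d, hd⟩ := Pool.Agent.V5helper35.WF.exists_deg hA
  obtain ⟨C, hC, hCC⟩ := Pool.Agent.V5helper35.WF.base2 hA hd hZ hf'
  obtain ⟨k, hk, hkk⟩ := Pool.Agent.V5helper35.WF.cnt_exp hA hd
  simp only [row_eq, column_eq]
  have hpr : ∀ m, 1 ≤ Pool.Agent.V5helper35.WF.cnt G f (Pool.Agent.V5helper35.WF.rec m 0) :=
    fun m => Pool.Agent.V5helper35.WF.cnt_pos (Pool.Agent.V5helper35.WF.fin_rec hA hd hf' m 0)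
  have hpc : ∀ m, 1 ≤ Pool.Agent.V5helper35.WF.cnt G f (Pool.Agent.V5helper35.WF.rec 0 m) :=
    fun m => Pool.Agent.V5helper35.WF.cnt_pos (Pool.Agent.V5helper35.WF.fin_rec hA hd hf' 0 m)
  obtain ⟨c1, hc1, hcc1⟩ := Pool.Agent.V5helper35.WF.logbound
    (fun m => Pool.Agent.V5helper35.WF.cnt G f (Pool.Agent.V5helper35.WF.rec m 0))
    (fun m => Pool.Agent.V5helper35.WF.cnt G f (Pool.Agent.V5helper35.WF.rec 0 m)) C k (max d 2) hC
    hk (le_max_right _ _) (fun m n => (hCC m n).1)
    (fun n => ((hkk f hf' n).1).trans (Nat.mul_le_mul_left _ (Nat.pow_le_pow_left (le_max_left _ _) _)))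
    hpr
  obtain ⟨c2, hc2, hcc2⟩ := Pool.Agent.V5helper35.WF.logbound
    (fun m => Pool.Agent.V5helper35.WF.cnt G f (Pool.Agent.V5helper35.WF.rec 0 m))
    (fun m => Pool.Agent.V5helper35.WF.cnt G f (Pool.Agent.V5helper35.WF.rec m 0)) C k (max d 2) hC
    hk (le_max_right _ _) (fun m n => (hCC m n).2)
    (fun n => ((hkk f hf' n).2).trans (Nat.mul_le_mul_left _ (Nat.pow_le_pow_left (le_max_left _ _) _)))
    hpc
  refine ⟨⟨C, hC, hCC⟩, ⟨min c1 c2, lt_min hc1 hc2, fun m => ⟨?_, ?_⟩⟩, ?_⟩
  · refine le_trans ?_ (hcc1 m)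
    have : 0 ≤ (m : ℝ) * Real.log m := mul_nonneg (Nat.cast_nonneg m) (Real.log_natCast_nonneg m)
    rw [mul_assoc, mul_assoc]
    exact mul_le_mul_of_nonneg_right (min_le_left _ _) this
  · refine le_trans ?_ (hcc2 m)
    have : 0 ≤ (m : ℝ) * Real.log m := mul_nonneg (Nat.cast_nonneg m) (Real.log_natCast_nonneg m)
    rw [mul_assoc, mul_assoc]
    exact mul_le_mul_of_nonneg_right (min_le_right _ _) this
  · intro A s t h
    have hs := Pool.Agent.V5helper35.WF.one_le_exp _ c1 A s hc1 hcc1 fun n hn => (h n hn).1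
    have ht := Pool.Agent.V5helper35.WF.one_le_exp _ c2 A t hc2 hcc2 fun n hn => (h n hn).2
    have h1 := Pool.Agent.V5helper35.WF.expbound _ _ C hC (fun m n => (hCC m n).1) hpc A s t hs ht
      (fun n hn => (h n hn).1) (fun n hn => (h n hn).2)
    have h2 := Pool.Agent.V5helper35.WF.expbound _ _ C hC (fun m n => (hCC m n).2) hpr A t s ht hs
      (fun n hn => (h n hn).2) (fun n hn => (h n hn).1)
    exact ⟨h1, h2, Pool.Agent.V5helper35.WF.golden s t hs ht h1 h2⟩

end Pool.Agent.Results.MP_140312_al.WordsOnLines
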